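import Mathlib
import Pool.Agent.Q64.EI.StA

/-!
Project EI (helper64), row MP_2f98db_ag: lemma job LM2, the Euler identity on a stratum.
-/

set_option autoImplicit false

open Finset MvPolynomial
open Pool.Agent.Q64.EI

namespace Pool.Agent.Q81.EI.Lm2

/-- Linear algebra: a basis of the span of the columns in `S` and a dual family. -/
theorem linalg {d n : ℕ} (A : Matrix (Fin (d + 1)) (Fin (n + 1)) ℂ) (S : Finset (Fin (n + 1))) :
    ∃ (B : Finset (Fin (n + 1))) (m : Fin (n + 1) → Fin (n + 1) → ℂ)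
      (v : Fin (n + 1) → Fin (d + 1) → ℂ), B ⊆ S ∧
      (∀ j, ∀ b ∈ B, ∑ i, A i j * v b i = m j b) ∧
      (∀ j ∈ S, ∀ i, A i j = ∑ b ∈ B, m j b * A i b) ∧ (∀ j ∈ B, m j j = 1) := by
  classical
  let v : Fin (n + 1) → (Fin (d + 1) → ℂ) := fun j i => A i j
  obtain ⟨b, hbS, -, hspan, hind⟩ := exists_linearIndepOn_extension (K := ℂ) (v := v)
    (s := ∅) (t := (S : Set (Fin (n + 1)))) (linearIndepOn_empty ℂ v) (Set.empty_subset _)
  let B : Finset (Fin (n + 1)) := S.filter (· ∈ b)
  have hB : ∀ j, j ∈ B ↔ j ∈ b := fun j =>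
    ⟨fun h => (mem_filter.1 h).2, fun h => mem_filter.2 ⟨hbS h, h⟩⟩
  let T : (B → ℂ) →ₗ[ℂ] (Fin (d + 1) → ℂ) := Fintype.linearCombination ℂ (fun x : B => v x)
  have hTind : LinearIndependent ℂ (fun x : B => v x) := by
    have h1 : LinearIndependent ℂ (fun x : b => v x) := hind
    exact h1.comp (fun x : B => (⟨x, (hB x).1 x.2⟩ : b)) (fun x y h => by
      apply Subtype.ext
      exact congrArg (fun z : b => (z : Fin (n + 1))) h)
  have hker : LinearMap.ker T = ⊥ := by
    rw [LinearMap.ker_eq_bot']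
    intro c hc
    have h1 : ∑ x : B, c x • v x = 0 := by
      rw [← hc]; exact (Fintype.linearCombination_apply ℂ _ c).symm
    funext x
    exact Fintype.linearIndependent_iff.1 hTind c h1 x
  obtain ⟨G, hG⟩ := T.exists_leftInverse_of_injective hker
  have hGT : ∀ c, G (T c) = c := fun c => by
    have := LinearMap.congr_fun hG c
    simpa using this
  have hTc : ∀ c, T c = ∑ x : B, c x • v x := fun c => Fintype.linearCombination_apply ℂ _ c
  have hGv : ∀ x : B, G (v x) = Pi.single x 1 := by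
    intro x
    have h1 : T (Pi.single x 1) = v x := by
      rw [hTc, Finset.sum_eq_single x]
      · simp
      · intro y _ hy; rw [Pi.single_eq_of_ne hy, zero_smul]
      · intro h; exact absurd (mem_univ x) h
    rw [← h1, hGT]
  have hTG : ∀ j ∈ S, T (G (v j)) = v j := by
    intro j hj
    have h1 : v j ∈ LinearMap.range T := by
      have h2 := hspan ⟨j, hj, rfl⟩
      have h3 : Submodule.span ℂ (v '' b) ≤ LinearMap.range T := by
        rw [Submodule.span_le]
        rintro _ ⟨x, hx, rfl⟩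
        refine ⟨Pi.single (⟨x, (hB x).2 hx⟩ : B) 1, ?_⟩
        rw [hTc, Finset.sum_eq_single (⟨x, (hB x).2 hx⟩ : B)]
        · simp
        · intro y _ hy; rw [Pi.single_eq_of_ne hy, zero_smul]
        · intro h; exact absurd (mem_univ _) h
      exact h3 h2
    obtain ⟨c, hc⟩ := h1
    rw [← hc, hGT]
  refine ⟨B, fun j x => if h : x ∈ B then G (v j) ⟨x, h⟩ else 0,
    fun x i => if h : x ∈ B then G (Pi.single i 1) ⟨x, h⟩ else 0, filter_subset _ _, ?_, ?_, ?_⟩
  · intro j x hx
    simp only [dif_pos hx]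
    have h1 : v j = ∑ i, A i j • (Pi.single i 1 : Fin (d + 1) → ℂ) := by
      funext k
      simp only [Finset.sum_apply, Pi.smul_apply, smul_eq_mul, Pi.single_apply, mul_ite, mul_one,
        mul_zero]
      simp [v]
    rw [h1, map_sum, Finset.sum_apply]
    refine sum_congr rfl fun i _ => ?_
    rw [map_smul, Pi.smul_apply, smul_eq_mul]
  · intro j hj i
    have h1 := congrFun (hTG j hj) i
    rw [hTc, Finset.sum_apply] at h1
    have h2 : A i j = v j i := rfl
    rw [h2, ← h1, ← Finset.sum_coe_sort B]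
    refine sum_congr rfl fun x _ => ?_
    change (G (v j) x • v ↑x) i =
      (if h : (x : Fin (n + 1)) ∈ B then G (v j) ⟨x, h⟩ else 0) * A i x
    rw [dif_pos x.2]
    rfl
  · intro j hj
    change (if h : j ∈ B then G (v j) ⟨j, h⟩ else 0) = 1
    rw [dif_pos hj]
    have h1 := congrFun (hGv ⟨j, hj⟩) ⟨j, hj⟩
    rw [Pi.single_eq_same] at h1
    exact h1

section Y

variable {m : ℕ} (φ : MvPolynomial (Fin m) ℂ →ₐ[ℂ] DZ m) (hX : ∀ j, φ (X j) = dd j)

include hX

theorem dd_comm_phi (j : Fin m) (h : MvPolynomial (Fin m) ℂ) : dd j * φ h = φ h * dd j := by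
  rw [← hX, ← map_mul, ← map_mul, mul_comm]

theorem dd_Y (T : Finset (Fin m)) (j : Fin m) (hj : j ∈ T) :
    dd j * φ (∏ i ∈ T.erase j, X i) = φ (∏ i ∈ T, X i) := by
  rw [← hX, ← map_mul, mul_prod_erase T _ hj]

theorem Y_zz (T : Finset (Fin m)) (j : Fin m) :
    φ (∏ i ∈ T, X i) * zz j = zz j * φ (∏ i ∈ T, X i) +
      if j ∈ T then φ (∏ i ∈ T.erase j, X i) else 0 := by
  classical
  induction T using Finset.induction_on with
  | empty => simp
  | insert a T ha ih =>
    rw [prod_insert ha, map_mul, hX, mul_assoc, ih, mul_add, ← mul_assoc, dd_zz]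
    by_cases hja : j = a
    · subst hja
      rw [if_neg ha, if_pos rfl, if_pos (mem_insert_self _ _), erase_insert ha, add_mul, one_mul,
        mul_zero, add_zero, mul_assoc]
    · rw [if_neg (fun h => hja h.symm), add_zero, mul_assoc]
      congr 1
      by_cases hjT : j ∈ T
      · rw [if_pos hjT, if_pos (mem_insert_of_mem hjT), erase_insert_of_ne (fun h => hja h.symm),
          prod_insert (fun h => ha (mem_of_mem_erase h)), map_mul, hX]
      · rw [if_neg hjT, if_neg (by simp [hja, hjT]), mul_zero]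

end Y

theorem lm2 : S_pbw → S_lm2 := by
  classical
  intro hp d n A u M _ _ S w hw hk
  obtain ⟨φ, -, hφ, hX, -, -⟩ := hp (n + 1)
  let _ : Module ℂ M := Module.compHom M (algebraMap ℂ (DZ (n + 1)))
  have : IsScalarTower ℂ (DZ (n + 1)) M := ⟨fun c a x => by
    rw [Algebra.smul_def, mul_smul]; rfl⟩
  have : SMulCommClass ℂ (DZ (n + 1)) M := IsScalarTower.to_smulCommClass
  have hsm : ∀ (c : ℂ) (x : M), algebraMap ℂ (DZ (n + 1)) c • x = c • x := fun c x => rfl
  obtain ⟨B, m, v, hBS, hv, hm, hm1⟩ := linalg A S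
  set Y : Finset (Fin (n + 1)) → DZ (n + 1) := fun T => φ (∏ i ∈ T, X i) with hY
  -- commutation rules on `M`
  have c1 : ∀ (j : Fin (n + 1)) (T : Finset (Fin (n + 1))) (x : M),
      (dd j : DZ (n + 1)) • Y T • x = Y T • (dd j : DZ (n + 1)) • x := by
    intro j T x
    rw [smul_smul, smul_smul, dd_comm_phi φ hX]
  have c2 : ∀ (j : Fin (n + 1)) (T : Finset (Fin (n + 1))) (x : M), j ∈ T →
      (dd j : DZ (n + 1)) • Y (T.erase j) • x = Y T • x := by
    intro j T x hj
    rw [smul_smul, dd_Y φ hX T j hj]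
  have c3 : ∀ (j : Fin (n + 1)) (T : Finset (Fin (n + 1))) (x : M),
      Y T • (zz j : DZ (n + 1)) • x = (zz j : DZ (n + 1)) • Y T • x +
        if j ∈ T then Y (T.erase j) • x else 0 := by
    intro j T x
    rw [smul_smul, hY]
    simp only
    rw [Y_zz φ hX, add_smul, mul_smul]
    congr 1
    split_ifs
    · rfl
    · rw [zero_smul]
  -- relation (1)
  have E1 : ∀ j ∈ S, Y (S.erase j) • w = ∑ b ∈ B, m j b • (Y (S.erase b) • w) := by
    intro j hj
    let h : MvPolynomial (Fin (n + 1)) ℂ :=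
      ∏ i ∈ S.erase j, X i - ∑ b ∈ B, m j b • ∏ i ∈ S.erase b, X i
    have hhom : h.IsHomogeneous (#S - 1) := by
      have hT : ∀ b ∈ S, (∏ i ∈ S.erase b, X i : MvPolynomial (Fin (n + 1)) ℂ).IsHomogeneous
          (#S - 1) := by
        intro b hb
        have h1 := MvPolynomial.IsHomogeneous.prod (S.erase b)
          (fun i => (X i : MvPolynomial (Fin (n + 1)) ℂ)) (fun _ => 1)
          (fun i _ => isHomogeneous_X ℂ i)
        rw [sum_const, card_erase_of_mem hb, smul_eq_mul, mul_one] at h1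
        exact h1
      refine (hT j hj).sub ?_
      refine MvPolynomial.IsHomogeneous.sum _ _ _ fun b hb => ?_
      rw [smul_eq_C_mul]
      have := (isHomogeneous_C (Fin (n + 1)) (m j b)).mul (hT b (hBS hb))
      rwa [zero_add] at this
    have hvan : VanRec A h := by
      intro t ht
      have hP : ∀ b ∈ S, ∏ i ∈ S.erase b, (ev A t i)⁻¹ = ev A t b * ∏ i ∈ S, (ev A t i)⁻¹ := by
        intro b hb
        rw [← mul_prod_erase S (fun i => (ev A t i)⁻¹) hb, ← mul_assoc, mul_inv_cancel₀ (ht b),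
          one_mul]
      simp only [h, map_sub, map_prod, eval_X, map_sum, smul_eval]
      rw [hP j hj, sum_congr rfl fun b hb => by rw [hP b (hBS hb), ← mul_assoc], ← sum_mul,
        ← sub_mul]
      have : ev A t j - ∑ b ∈ B, m j b * ev A t b = 0 := by
        simp only [ev, mul_sum]
        rw [sum_comm, ← sum_sub_distrib]
        refine sum_eq_zero fun i _ => ?_
        rw [hm j hj i, sum_mul, sub_eq_zero]
        refine sum_congr rfl fun b _ => by ring
      rw [this, zero_mul]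
    have h1 := hw (hd h) (Submodule.subset_span (Or.inr ⟨h, _, hhom, hvan, rfl⟩))
    rw [← hφ] at h1
    simp only [h, map_sub, map_sum, map_smul, sub_smul, sum_smul, smul_assoc] at h1
    exact sub_eq_zero.1 h1
  -- relation (2)
  have E2 : ∀ b ∈ B, ∑ j ∈ S, m j b • ((zz j : DZ (n + 1)) • (dd j : DZ (n + 1)) •
      (dd j : DZ (n + 1)) • w - u j • (dd j : DZ (n + 1)) • w) = 0 := by
    intro b hb
    have h1 : ∀ i, pop A u i • w = 0 := fun i =>
      hw _ (Submodule.subset_span (Or.inl (Or.inr ⟨i, rfl⟩)))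
    have h2 : ∑ i, v b i • (pop A u i • w) = 0 := sum_eq_zero fun i _ => by rw [h1, smul_zero]
    obtain ⟨E, hE⟩ : ∃ E : Fin (n + 1) → M, ∀ j, E j = (zz j : DZ (n + 1)) •
      (dd j : DZ (n + 1)) • (dd j : DZ (n + 1)) • w - u j • (dd j : DZ (n + 1)) • w :=
      ⟨_, fun _ => rfl⟩
    have h3 : ∀ i, pop A u i • w = ∑ j, A i j • E j := by
      intro i
      rw [pop, sum_smul]
      refine sum_congr rfl fun j _ => ?_
      rw [hE, smul_assoc, sub_smul, pow_two, mul_smul, mul_smul, smul_assoc]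
    have h5 : ∑ j, m j b • E j = 0 := by
      simp only [h3, smul_sum] at h2
      rw [sum_comm] at h2
      rw [← h2]
      refine sum_congr rfl fun j _ => ?_
      rw [← hv j b hb, sum_smul]
      refine sum_congr rfl fun i _ => ?_
      rw [smul_smul, mul_comm]
    simp only [← hE]
    rw [← h5]
    refine sum_subset (subset_univ S) fun j _ hj => ?_
    rw [hE, hk j hj]
    simp
  have E2' : ∀ b ∈ B, ∑ j ∈ S, m j b • ((zz j : DZ (n + 1)) • (dd j : DZ (n + 1)) •
      (dd j : DZ (n + 1)) • Y (S.erase b) • w +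
      (if j = b then 0 else (dd j : DZ (n + 1)) • Y (S.erase b) • w) -
      u j • (dd j : DZ (n + 1)) • Y (S.erase b) • w) = 0 := by
    intro b hb
    have h1 : Y (S.erase b) • ∑ j ∈ S, m j b • ((zz j : DZ (n + 1)) • (dd j : DZ (n + 1)) •
      (dd j : DZ (n + 1)) • w - u j • (dd j : DZ (n + 1)) • w) = 0 := by
      rw [E2 b hb, smul_zero]
    rw [smul_sum] at h1
    refine Eq.trans ?_ h1
    refine sum_congr rfl fun j hj => ?_
    rw [smul_comm (Y (S.erase b)) (m j b)]
    congr 1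
    rw [smul_sub (Y (S.erase b)), c3, smul_comm (Y (S.erase b)) (u j), c1, c1]
    congr 2
    by_cases hjb : j = b
    · rw [if_pos hjb, if_neg (by simp [hjb])]
    · rw [if_neg hjb, if_pos (mem_erase.2 ⟨hjb, hj⟩), ← c1, ← c1,
        c2 _ _ _ (mem_erase.2 ⟨hjb, hj⟩)]
      rw [c1]
  have E4 : ∑ j ∈ S, ((zz j : DZ (n + 1)) • (dd j : DZ (n + 1)) • Y S • w + Y S • w -
      (if j ∈ B then Y S • w else 0) - u j • Y S • w) = 0 := by
    have h1 : ∑ b ∈ B, ∑ j ∈ S, m j b • ((zz j : DZ (n + 1)) • (dd j : DZ (n + 1)) •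
      (dd j : DZ (n + 1)) • Y (S.erase b) • w +
      (if j = b then 0 else (dd j : DZ (n + 1)) • Y (S.erase b) • w) -
      u j • (dd j : DZ (n + 1)) • Y (S.erase b) • w) = 0 := sum_eq_zero E2'
    rw [sum_comm] at h1
    refine Eq.trans ?_ h1
    refine sum_congr rfl fun j hj => ?_
    have h2 : ∀ b ∈ B, m j b • ((zz j : DZ (n + 1)) • (dd j : DZ (n + 1)) •
      (dd j : DZ (n + 1)) • Y (S.erase b) • w +
      (if j = b then 0 else (dd j : DZ (n + 1)) • Y (S.erase b) • w) -
      u j • (dd j : DZ (n + 1)) • Y (S.erase b) • w) =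
      (zz j : DZ (n + 1)) • (dd j : DZ (n + 1)) •
      (dd j : DZ (n + 1)) • (m j b • Y (S.erase b) • w) +
      (dd j : DZ (n + 1)) • (m j b • Y (S.erase b) • w) -
      (if j = b then m j b • Y S • w else 0) -
      u j • (dd j : DZ (n + 1)) • (m j b • Y (S.erase b) • w) := by
      intro b hb
      by_cases hjb : j = b
      · subst hjb
        rw [if_pos rfl, if_pos rfl, add_zero, smul_sub]
        simp only [smul_comm (m j j)]
        rw [← c2 j S (m j j • w) hj]
        abel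
      · rw [if_neg hjb, if_neg hjb, sub_zero, smul_sub, smul_add]
        simp only [smul_comm (m j b)]
    rw [sum_congr rfl h2, sum_sub_distrib, sum_sub_distrib, sum_add_distrib]
    simp only [← smul_sum]
    rw [← E1 j hj, c2 j S w hj]
    congr 2
    by_cases hjB : j ∈ B
    · rw [if_pos hjB, sum_ite_eq, if_pos hjB, hm1 j hjB, one_smul]
    · rw [if_neg hjB, sum_ite_eq, if_neg hjB]
  have E5 : ∑ j ∈ S, (zz j : DZ (n + 1)) • (dd j : DZ (n + 1)) • Y S • w + (#S : ℂ) • Y S • w +
      sp d u • Y S • w = 0 := by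
    have h1 : eul d u • w = 0 := hw _ (Submodule.subset_span (Or.inl (Or.inl rfl)))
    have h2 : Y S • (eul d u • w) = 0 := by rw [h1, smul_zero]
    rw [eul, add_smul, sum_smul, smul_add, smul_sum, hsm, smul_comm (Y S) (sp d u)] at h2
    have h3 : ∑ j, Y S • ((zz j * dd j : DZ (n + 1)) • w) =
        ∑ j ∈ S, (zz j : DZ (n + 1)) • (dd j : DZ (n + 1)) • Y S • w + (#S : ℂ) • Y S • w := by
      rw [← sum_subset (subset_univ S) (f := fun j => Y S • ((zz j * dd j : DZ (n + 1)) • w))]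
      · have h4 : ∀ j ∈ S, Y S • ((zz j * dd j : DZ (n + 1)) • w) =
            (zz j : DZ (n + 1)) • (dd j : DZ (n + 1)) • Y S • w + Y S • w := by
          intro j hj
          rw [mul_smul, c3, if_pos hj, ← c1, ← c1, c2 j S w hj]
        rw [sum_congr rfl h4, sum_add_distrib, sum_const]
        congr 1
        rw [← Nat.cast_smul_eq_nsmul ℂ]
      · intro j _ hj
        rw [mul_smul, hk j hj, smul_zero, smul_zero]
    rw [h3] at h2
    exact h2
  have E6 : ∑ j ∈ S, (zz j : DZ (n + 1)) • (dd j : DZ (n + 1)) • Y S • w + (#S : ℂ) • Y S • w -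
      (#B : ℂ) • Y S • w - (∑ j ∈ S, u j) • Y S • w = 0 := by
    rw [← E4, sum_sub_distrib, sum_sub_distrib, sum_add_distrib, sum_const, sum_smul]
    congr 2
    · congr 1
      rw [← Nat.cast_smul_eq_nsmul ℂ]
    · rw [← sum_filter, sum_const, ← Nat.cast_smul_eq_nsmul ℂ]
      congr 3
      exact (filter_mem_eq_inter.trans (inter_eq_right.2 hBS)).symm
  refine ⟨#B, ?_⟩
  rw [← hφ, hsm]
  change (∑ j ∈ Sᶜ, u j + (d + 1) - (#B : ℂ)) • Y S • w = 0
  have h7 : (∑ j ∈ Sᶜ, u j + (d + 1) - (#B : ℂ)) • Y S • w =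
      (∑ j ∈ S, (zz j : DZ (n + 1)) • (dd j : DZ (n + 1)) • Y S • w + (#S : ℂ) • Y S • w -
      (#B : ℂ) • Y S • w - (∑ j ∈ S, u j) • Y S • w) -
      (∑ j ∈ S, (zz j : DZ (n + 1)) • (dd j : DZ (n + 1)) • Y S • w + (#S : ℂ) • Y S • w +
      sp d u • Y S • w) := by
    have h8 : ∑ j ∈ Sᶜ, u j + (d + 1) - (#B : ℂ) = -(#B : ℂ) - (∑ j ∈ S, u j) - sp d u := by
      rw [sp, ← sum_add_sum_compl S u]
      ring
    rw [h8, sub_smul, sub_smul, neg_smul]
    abel
  rw [h7, E6, E5, sub_zero]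

end Pool.Agent.Q81.EI.Lm2
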