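import Mathlib
import Pool.Agent.Q64.EI.StA

/-!
Project EI (helper64), row MP_2f98db_ag: lemma job NOE, the Weyl algebra is left noetherian.
-/

set_option autoImplicit false

open Finset

namespace Pool.Agent.Q81.EI.Noe

/-- Leading coefficients in degree `k` of the elements of the left ideal `I`. -/
def lead {A B : Type*} [Ring A] [Ring B] (f : A →+* B) (x : B) (I : Submodule B B) (k : ℕ) :
    Submodule A A where
  carrier := {a | ∃ c : ℕ → A, f a * x ^ k + ∑ i ∈ range k, f (c i) * x ^ i ∈ I}
  add_mem' := by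
    rintro a b ⟨c, hc⟩ ⟨c', hc'⟩
    refine ⟨fun i => c i + c' i, ?_⟩
    have h := I.add_mem hc hc'
    have e : f (a + b) * x ^ k + ∑ i ∈ range k, f (c i + c' i) * x ^ i =
        f a * x ^ k + ∑ i ∈ range k, f (c i) * x ^ i +
          (f b * x ^ k + ∑ i ∈ range k, f (c' i) * x ^ i) := by
      simp only [map_add, add_mul, sum_add_distrib]
      abel
    rw [e]; exact h
  zero_mem' := ⟨fun _ => 0, by simp⟩
  smul_mem' := by
    rintro b a ⟨c, hc⟩
    refine ⟨fun i => b * c i, ?_⟩
    have h := I.smul_mem (f b) hc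
    have e : f (b • a) * x ^ k + ∑ i ∈ range k, f (b * c i) * x ^ i =
        f b • (f a * x ^ k + ∑ i ∈ range k, f (c i) * x ^ i) := by
      simp only [smul_eq_mul, map_mul, mul_add, mul_sum, mul_assoc]
    rw [e]; exact h

theorem lead_mono {A B : Type*} [Ring A] [Ring B] (f : A →+* B) (x : B) {I J : Submodule B B}
    (h : I ≤ J) (k : ℕ) : lead f x I k ≤ lead f x J k := by
  rintro a ⟨c, hc⟩
  exact ⟨c, h hc⟩

theorem lead_succ {A B : Type*} [Ring A] [Ring B] (f : A →+* B) (x : B)
    (h1 : ∀ a, ∃ a', x * f a = f a * x + f a') (I : Submodule B B) (k : ℕ) :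
    lead f x I k ≤ lead f x I (k + 1) := by
  rintro a ⟨c, hc⟩
  choose δ hδ using h1
  refine ⟨fun i => (if i = k then δ a else 0) + (if i = 0 then 0 else c (i - 1)) +
    (if i < k then δ (c i) else 0), ?_⟩
  have h := I.smul_mem x hc
  have e : f a * x ^ (k + 1) + ∑ i ∈ range (k + 1), f ((if i = k then δ a else 0) +
      (if i = 0 then 0 else c (i - 1)) + (if i < k then δ (c i) else 0)) * x ^ i =
        x • (f a * x ^ k + ∑ i ∈ range k, f (c i) * x ^ i) := by
    have e1 : ∑ i ∈ range (k + 1), f (if i = k then δ a else 0) * x ^ i = f (δ a) * x ^ k := by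
      rw [sum_eq_single k]
      · simp
      · intro b _ hb; simp [hb]
      · intro hb; exact absurd (mem_range.2 (Nat.lt_succ_self k)) hb
    have e2 : ∑ i ∈ range (k + 1), f (if i = 0 then 0 else c (i - 1)) * x ^ i =
        ∑ i ∈ range k, f (c i) * x ^ (i + 1) := by
      rw [sum_range_succ']
      simp
    have e3 : ∑ i ∈ range (k + 1), f (if i < k then δ (c i) else 0) * x ^ i =
        ∑ i ∈ range k, f (δ (c i)) * x ^ i := by
      rw [sum_range_succ]
      simp only [lt_irrefl, if_false, map_zero, zero_mul, add_zero]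
      refine sum_congr rfl fun i hi => ?_
      rw [if_pos (mem_range.1 hi)]
    simp only [map_add, add_mul, sum_add_distrib] at e1 e2 e3 ⊢
    rw [e1, e2, e3, smul_eq_mul, mul_add, mul_sum, ← mul_assoc x (f a), hδ a, add_mul, mul_assoc,
      ← pow_succ']
    have e4 : ∑ i ∈ range k, x * (f (c i) * x ^ i) =
        ∑ i ∈ range k, f (c i) * x ^ (i + 1) + ∑ i ∈ range k, f (δ (c i)) * x ^ i := by
      rw [← sum_add_distrib]
      refine sum_congr rfl fun i _ => ?_
      rw [← mul_assoc, hδ, add_mul, mul_assoc, ← pow_succ']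
    rw [e4]
    abel
  rw [e]; exact h

theorem lead_mono_nat {A B : Type*} [Ring A] [Ring B] (f : A →+* B) (x : B)
    (h1 : ∀ a, ∃ a', x * f a = f a * x + f a') (I : Submodule B B) :
    Monotone (lead f x I) :=
  monotone_nat_of_le_succ (lead_succ f x h1 I)

theorem mem_of_lead {A B : Type*} [Ring A] [Ring B] (f : A →+* B) (x : B)
    {I J : Submodule B B} (hIJ : I ≤ J) (h : ∀ k, lead f x J k ≤ lead f x I k) (n : ℕ) :
    ∀ c : ℕ → A, ∑ i ∈ range n, f (c i) * x ^ i ∈ J → ∑ i ∈ range n, f (c i) * x ^ i ∈ I := by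
  induction n with
  | zero => intro c _; simp
  | succ n ih =>
    intro c hc
    have h0 : c n ∈ lead f x J n := ⟨c, by rw [sum_range_succ] at hc; rw [add_comm]; exact hc⟩
    obtain ⟨c', hc'⟩ := h n h0
    have h2 : ∑ i ∈ range n, f (c i - c' i) * x ^ i ∈ J := by
      have e : ∑ i ∈ range n, f (c i - c' i) * x ^ i = ∑ i ∈ range (n + 1), f (c i) * x ^ i -
          (f (c n) * x ^ n + ∑ i ∈ range n, f (c' i) * x ^ i) := by
        rw [sum_range_succ]
        simp only [map_sub, sub_mul, sum_sub_distrib]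
        abel
      rw [e]; exact J.sub_mem hc (hIJ hc')
    have h3 := ih _ h2
    have e : ∑ i ∈ range (n + 1), f (c i) * x ^ i = ∑ i ∈ range n, f (c i - c' i) * x ^ i +
          (f (c n) * x ^ n + ∑ i ∈ range n, f (c' i) * x ^ i) := by
      rw [sum_range_succ]
      simp only [map_sub, sub_mul, sum_sub_distrib]
      abel
    rw [e]; exact I.add_mem h3 hc'

/-- Hilbert's basis theorem for a differential extension. -/
theorem noeth_ext {A B : Type*} [Ring A] [Ring B] [IsNoetherianRing A] (f : A →+* B) (x : B)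
    (h1 : ∀ a, ∃ a', x * f a = f a * x + f a')
    (h2 : ∀ b : B, ∃ (n : ℕ) (c : ℕ → A), b = ∑ i ∈ range n, f (c i) * x ^ i) :
    IsNoetherianRing B := by
  have key : ∀ F : ℕ →o Submodule B B, ∃ n, ∀ m, n ≤ m → F n = F m := by
    intro F
    have hA := (monotone_stabilizes_iff_noetherian (R := A) (M := A)).2 inferInstance
    let g : ℕ →o Submodule A A := ⟨fun n => lead f x (F n) n, fun a b hab =>
      (lead_mono f x (F.monotone hab) a).trans (lead_mono_nat f x h1 (F b) hab)⟩
    obtain ⟨N, hN⟩ := hA g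
    have hk : ∀ k, ∃ n, ∀ m, n ≤ m → lead f x (F n) k = lead f x (F m) k := by
      intro k
      exact hA ⟨fun n => lead f x (F n) k, fun a b hab => lead_mono f x (F.monotone hab) k⟩
    choose M hM using hk
    refine ⟨max N ((range N).sup M), fun m hm => ?_⟩
    refine le_antisymm (F.monotone hm) ?_
    set P := max N ((range N).sup M) with hP
    have hlead : ∀ k, lead f x (F m) k ≤ lead f x (F P) k := by
      intro k
      by_cases hkN : k < N
      · have h3 : M k ≤ P := (le_sup (f := M) (mem_range.2 hkN)).trans (le_max_right _ _)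
        rw [← hM k P h3, ← hM k m (h3.trans hm)]
      · have hkN := not_lt.1 hkN
        have hNP : N ≤ P := le_max_left _ _
        have a1 : lead f x (F m) k ≤ g (max k m) :=
          (lead_mono f x (F.monotone (le_max_right k m)) k).trans
            (lead_mono_nat f x h1 _ (le_max_left k m))
        have a2 : g (max k m) = g N := (hN _ (hkN.trans (le_max_left _ _))).symm
        have a3 : g N ≤ lead f x (F P) k :=
          (lead_mono f x (F.monotone hNP) N).trans (lead_mono_nat f x h1 _ hkN)
        rw [a2] at a1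
        exact a1.trans a3
    intro y hy
    obtain ⟨n, c, rfl⟩ := h2 y
    exact mem_of_lead f x (F.monotone hm) hlead n c hy
  exact (monotone_stabilizes_iff_noetherian (R := B) (M := B)).1 key

/-- Adjoining elements with scalar commutators one after the other. -/
theorem noeth_adjoin {D : Type*} [Ring D] [Algebra ℂ D] (g : ℕ → D)
    (hg : ∀ i j, ∃ c : ℂ, g i * g j = g j * g i + algebraMap ℂ D c) (k : ℕ) :
    IsNoetherianRing (Algebra.adjoin ℂ (g '' {i | i < k})) := by
  induction k with
  | zero =>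
    have h0 : (g '' {i | i < 0}) = ∅ := by simp
    rw [h0, Algebra.adjoin_empty]
    refine isNoetherianRing_of_surjective ℂ (⊥ : Subalgebra ℂ D)
      (algebraMap ℂ (⊥ : Subalgebra ℂ D)) ?_
    rintro ⟨y, hy⟩
    obtain ⟨c, rfl⟩ := Algebra.mem_bot.1 hy
    exact ⟨c, rfl⟩
  | succ k ih =>
    set A := Algebra.adjoin ℂ (g '' {i | i < k}) with hA
    set B := Algebra.adjoin ℂ (g '' {i | i < k + 1}) with hB
    have hAB : A ≤ B := Algebra.adjoin_mono (Set.image_mono fun i (hi : i < k) =>
      Nat.lt_succ_of_lt hi)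
    have hxB : g k ∈ B := Algebra.subset_adjoin ⟨k, Nat.lt_succ_self k, rfl⟩
    have hcom : ∀ a ∈ A, g k * a - a * g k ∈ A := by
      intro a ha
      induction ha using Algebra.adjoin_induction with
      | mem y hy =>
        obtain ⟨i, _, rfl⟩ := hy
        obtain ⟨c, hc⟩ := hg k i
        rw [hc, add_sub_cancel_left]
        exact A.algebraMap_mem c
      | algebraMap r => rw [← Algebra.commutes]; simp [A.zero_mem]
      | add y z hy hz h1 h2 =>
        have : g k * (y + z) - (y + z) * g k = (g k * y - y * g k) + (g k * z - z * g k) := by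
          rw [mul_add, add_mul]; abel
        rw [this]; exact A.add_mem h1 h2
      | mul y z hy hz h1 h2 =>
        have : g k * (y * z) - y * z * g k = (g k * y - y * g k) * z + y * (g k * z - z * g k) := by
          noncomm_ring
        rw [this]; exact A.add_mem (A.mul_mem h1 hz) (A.mul_mem hy h2)
    -- sums `a_i x^i`
    let SF : D → Prop := fun y => ∃ (n : ℕ) (c : ℕ → A), y = ∑ i ∈ range n, (c i : D) * g k ^ i
    have SF_add : ∀ y z, SF y → SF z → SF (y + z) := by
      rintro y z ⟨n, c, rfl⟩ ⟨n', c', rfl⟩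
      refine ⟨n + n', fun i => (if i < n then c i else 0) + (if i < n' then c' i else 0), ?_⟩
      have e : ∀ (p q : ℕ) (c : ℕ → A), ∑ i ∈ range (p + q),
          (((if i < p then c i else 0 : A)) : D) * g k ^ i = ∑ i ∈ range p, (c i : D) * g k ^ i := by
        intro p q c
        rw [← sum_subset (s₁ := range p)]
        · refine sum_congr rfl fun i hi => ?_
          rw [if_pos (mem_range.1 hi)]
        · intro i hi; exact mem_range.2 ((mem_range.1 hi).trans_le (Nat.le_add_right _ _))
        · intro i _ hi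
          rw [if_neg (by simpa using hi)]
          simp
      have e' := e n' n c'
      rw [Nat.add_comm] at e'
      simp only [AddMemClass.coe_add, add_mul, sum_add_distrib]
      rw [e n n' c, e']
    have SF_zero : SF 0 := ⟨0, fun _ => 0, by simp⟩
    have SF_mono : ∀ (a : A) (i : ℕ), SF ((a : D) * g k ^ i) := by
      intro a i
      refine ⟨i + 1, fun j => if j = i then a else 0, ?_⟩
      rw [sum_eq_single i]
      · simp
      · intro b _ hb; simp [hb]
      · intro hb; exact absurd (mem_range.2 (Nat.lt_succ_self i)) hb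
    have SF_sum : ∀ (n : ℕ) (F : ℕ → D), (∀ i, SF (F i)) → SF (∑ i ∈ range n, F i) := by
      intro n F hF
      induction n with
      | zero => simpa using SF_zero
      | succ n ihn => rw [sum_range_succ]; exact SF_add _ _ ihn (hF n)
    have SF_mulA : ∀ a ∈ A, ∀ y, SF y → SF (a * y) := by
      rintro a ha y ⟨n, c, rfl⟩
      rw [mul_sum]
      refine SF_sum n _ fun i => ?_
      rw [← mul_assoc]
      exact SF_mono (⟨a, ha⟩ * c i) i
    have SF_mulx : ∀ y, SF y → SF (g k * y) := by
      rintro y ⟨n, c, rfl⟩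
      rw [mul_sum]
      refine SF_sum n _ fun i => ?_
      have e : g k * ((c i : D) * g k ^ i) = (c i : D) * g k ^ (i + 1) +
          (g k * (c i : D) - (c i : D) * g k) * g k ^ i := by
        rw [pow_succ']
        noncomm_ring
      rw [e]
      exact SF_add _ _ (SF_mono _ _) (SF_mono ⟨_, hcom _ (c i).2⟩ i)
    have SF_B : ∀ b ∈ B, ∀ y, SF y → SF (b * y) := by
      intro b hb
      induction hb using Algebra.adjoin_induction with
      | mem z hz =>
        obtain ⟨i, hi, rfl⟩ := hz
        rcases Nat.lt_succ_iff_lt_or_eq.1 hi with h | h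
        · exact SF_mulA _ (Algebra.subset_adjoin ⟨i, h, rfl⟩)
        · subst h; exact SF_mulx
      | algebraMap r => exact SF_mulA _ (A.algebraMap_mem r)
      | add y z hy hz h1 h2 => intro w hw; rw [add_mul]; exact SF_add _ _ (h1 w hw) (h2 w hw)
      | mul y z hy hz h1 h2 => intro w hw; rw [mul_assoc]; exact h1 _ (h2 w hw)
    have SF_one : SF 1 := by
      have := SF_mono 1 0
      simpa using this
    have : IsNoetherianRing A := ih
    refine noeth_ext (A := A) (B := B) ((Subalgebra.inclusion hAB : A →ₐ[ℂ] B) : A →+* B)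
      ⟨g k, hxB⟩ ?_ ?_
    · intro a
      refine ⟨⟨_, hcom _ a.2⟩, Subtype.ext ?_⟩
      simp
    · intro b
      obtain ⟨n, c, hc⟩ := SF_B b b.2 1 SF_one
      refine ⟨n, c, Subtype.ext ?_⟩
      rw [mul_one] at hc
      rw [hc]
      simp

open Pool.Agent.Q64.EI in
theorem adjoin_top (m : ℕ) :
    Algebra.adjoin ℂ (Set.range (zz : Fin m → DZ m) ∪ Set.range (dd : Fin m → DZ m)) = ⊤ := by
  rw [eq_top_iff]
  rintro y -
  obtain ⟨p, rfl⟩ := RingQuot.mkAlgHom_surjective ℂ (WRel m) y
  induction p using FreeAlgebra.induction with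
  | grade0 r => simp [Subalgebra.algebraMap_mem]
  | grade1 x =>
    rcases x with j | j
    · exact Algebra.subset_adjoin (Or.inl ⟨j, rfl⟩)
    · exact Algebra.subset_adjoin (Or.inr ⟨j, rfl⟩)
  | mul a b ha hb => rw [map_mul]; exact Subalgebra.mul_mem _ ha hb
  | add a b ha hb => rw [map_add]; exact Subalgebra.add_mem _ ha hb

open Pool.Agent.Q64.EI in
theorem noe : S_noe := by
  intro m
  let g : ℕ → DZ m := fun i => if h : i < m then zz ⟨i, h⟩ else
    if h' : i - m < m then dd ⟨i - m, h'⟩ else 0
  have gz : ∀ j : Fin m, g j = zz j := by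
    intro j; simp [g, j.2]
  have gd : ∀ j : Fin m, g (m + j) = dd j := by
    intro j; simp [g]
  have gcase : ∀ i, (∃ j, g i = zz j) ∨ (∃ j, g i = dd j) ∨ g i = 0 := by
    intro i
    by_cases h : i < m
    · exact Or.inl ⟨⟨i, h⟩, by simp [g, h]⟩
    · by_cases h' : i - m < m
      · exact Or.inr (Or.inl ⟨⟨i - m, h'⟩, by simp [g, h, h']⟩)
      · exact Or.inr (Or.inr (by simp [g, h, h']))
  have hg : ∀ i j, ∃ c : ℂ, g i * g j = g j * g i + algebraMap ℂ (DZ m) c := by
    intro i j
    rcases gcase i with ⟨a, ha⟩ | ⟨a, ha⟩ | ha <;> rcases gcase j with ⟨b, hb⟩ | ⟨b, hb⟩ | hb <;>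
      rw [ha, hb]
    · exact ⟨0, by rw [zz_comm]; simp⟩
    · refine ⟨-(if b = a then 1 else 0), ?_⟩
      rw [dd_zz]
      split_ifs <;> simp
    · exact ⟨0, by simp⟩
    · refine ⟨if a = b then 1 else 0, ?_⟩
      rw [dd_zz]
      split_ifs <;> simp
    · exact ⟨0, by rw [dd_comm]; simp⟩
    · exact ⟨0, by simp⟩
    · exact ⟨0, by simp⟩
    · exact ⟨0, by simp⟩
    · exact ⟨0, by simp⟩
  have h := noeth_adjoin g hg (2 * m)
  have htop : Algebra.adjoin ℂ (g '' {i | i < 2 * m}) = ⊤ := by
    rw [eq_top_iff, ← adjoin_top m]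
    refine Algebra.adjoin_mono ?_
    rintro y (⟨j, rfl⟩ | ⟨j, rfl⟩)
    · exact ⟨j, by have := j.2; simp only [Set.mem_ofPred_eq]; omega, gz j⟩
    · exact ⟨m + j, by have := j.2; simp only [Set.mem_ofPred_eq]; omega, gd j⟩
  rw [htop] at h
  exact isNoetherianRing_of_ringEquiv _ (Subalgebra.topEquiv (R := ℂ) (A := DZ m)).toRingEquiv

end Pool.Agent.Q81.EI.Noe
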